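import Mathlib
import Pool.Agent.H3.Artin.Final
import Pool.Agent.H8.TW.DualFinal

open NumberField IsDedekindDomain Filter Topology Module Pool.Agent.H3.TatePole Pool.Agent.H3.Artin

namespace Pool.Agent.Results.MP_1f4fc7_nt.ArtinDefect

/-- **Bounds for the defects of the pole formula over Artin twists.**

`k` is a number field, `Ω` an algebraic closure, `ρ` a finite-dimensional complex representation
of `Gal(Ω/k)` with weights at most two (for instance `H²(X̄, ℚ_ℓ) ⊗ ℂ` for a smooth projective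
variety `X` over `k`), `α` a complex representation which is trivial on `Gal(Ω/L)` for a finite
extension `L` of `k` (for instance `NS(X̄) ⊗ ℂ`), and `cl` an injective linear map, equivariant up
to the Tate twist `ω` (for instance the cycle class map).  `M` is a finite Galois extension of `k`
with group `G`.  For a representation `χ` of `G` the `L`-function of the twist `ρ ⊗ χ` is expected to
have a pole at `s = 2` of order the dimension `m` of the space of invariants of `α ⊗ χ`; the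
difference between the order (or growth) and `m` is the defect of `χ`.  Let `B = dim ρ - dim α`.
(1) Dual inequality: for all representations `χ i` of `G` and real numbers `c i`, the sum of
`c i` times the defect of `χ i` is at most `B` times the mean over `g` in `G` of `‖∑ c i χ i (g)‖`.
(2) Bessel inequality: for pairwise non-isomorphic irreducible `χ i`, the sum of the squares of the
defects is at most `B²`, a bound which does not depend on `M`.
(3) For one irreducible `χ` whose character is nonzero on less than `#G / B²` elements of `G`, the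
only possible order of a pole of the `L`-function of `ρ ⊗ χ` at `s = 2` is the expected one. -/
theorem result {k : Type*} [Field k] [NumberField k] {Ω : Type*} [Field Ω] [Algebra k Ω]
    [IsGalois k Ω] [IsAlgClosed Ω]
    {V A : Type*} [AddCommGroup V] [Module ℂ V] [FiniteDimensional ℂ V]
    [AddCommGroup A] [Module ℂ A] [FiniteDimensional ℂ A]
    (ρ : Representation ℂ Gal(Ω/k) V) (hρ : WeightsLeTwo (RingHom.id ℂ) ρ)
    (α : Representation ℂ Gal(Ω/k) A) (L : IntermediateField k Ω) [FiniteDimensional k L]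
    (hα : ∀ σ ∈ L.fixingSubgroup, α σ = 1)
    (ω : Gal(Ω/k) →* ℂ) (hω : IsTateTwist ω)
    (cl : A →ₗ[ℂ] V) (hcl : Function.Injective cl)
    (hclω : ∀ σ a, ρ σ (cl a) = ω σ • cl (α σ a))
    (M : IntermediateField k Ω) [FiniteDimensional k M] [Normal k M]
    {ι : Type*} [Fintype ι] (W : ι → Type*) [∀ i, AddCommGroup (W i)] [∀ i, Module ℂ (W i)]
    [∀ i, FiniteDimensional ℂ (W i)] (χ : ∀ i, Representation ℂ Gal(M/k) (W i)) :
    ((∀ (c : ι → ℝ) (ε : ℝ), 0 < ε → ∀ᶠ s : ℝ in 𝓝[>] 2,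
        |∑ i, c i * (Real.log ‖twistedL ρ (χ i) s‖ / Real.log (1 / (s - 2)) -
          twistedRank α (χ i))| ≤ ((finrank ℂ V : ℝ) - finrank ℂ A) *
            ((∑ g : Gal(M/k), ‖∑ i, (c i : ℂ) * (χ i).character g‖) / Nat.card Gal(M/k)) + ε) ∧
      (∀ (c : ι → ℝ) (r : ι → ℤ), (∀ i, HasPoleOfOrder (twistedL ρ (χ i)) 2 (r i)) →
        |∑ i, c i * ((r i : ℝ) - twistedRank α (χ i))| ≤ ((finrank ℂ V : ℝ) - finrank ℂ A) *
            ((∑ g : Gal(M/k), ‖∑ i, (c i : ℂ) * (χ i).character g‖) / Nat.card Gal(M/k)))) ∧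
    ((∀ i, (χ i).IsIrreducible) → (∀ i j, i ≠ j → IsEmpty ((χ i).Equiv (χ j))) →
      (∀ ε : ℝ, 0 < ε → ∀ᶠ s : ℝ in 𝓝[>] 2,
        ∑ i, (Real.log ‖twistedL ρ (χ i) s‖ / Real.log (1 / (s - 2)) - twistedRank α (χ i)) ^ 2 ≤
          ((finrank ℂ V : ℝ) - finrank ℂ A) ^ 2 + ε) ∧
      (∀ r : ι → ℤ, (∀ i, HasPoleOfOrder (twistedL ρ (χ i)) 2 (r i)) →
        ∑ i, (r i - twistedRank α (χ i)) ^ 2 ≤ ((finrank ℂ V : ℤ) - finrank ℂ A) ^ 2)) ∧
    (∀ i, (χ i).IsIrreducible →
      (finrank ℂ V - finrank ℂ A) ^ 2 * Nat.card {g : Gal(M/k) // (χ i).character g ≠ 0} <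
        Nat.card Gal(M/k) →
      ∀ r : ℤ, HasPoleOfOrder (twistedL ρ (χ i)) 2 r → r = twistedRank α (χ i)) := by
  have hω' : {𝔭 : HeightOneSpectrum (𝓞 k) |
      ω (frobeniusAt Ω 𝔭).φ⁻¹ ≠ Ideal.absNorm 𝔭.asIdeal}.Finite :=
    hω.subset fun 𝔭 h => ⟨_, h⟩
  have hα' : ∀ σ ∈ (IntermediateField.normalClosure k L Ω).fixingSubgroup, α σ = 1 := fun σ hσ =>
    hα σ (IntermediateField.fixingSubgroup_antitone (IntermediateField.le_normalClosure L) hσ)
  have hmean : ∀ c : ι → ℝ, Pool.Agent.H8.TW.meanNorm χ c =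
      (∑ g : Gal(M/k), ‖∑ i, (c i : ℂ) * (χ i).character g‖) / Nat.card Gal(M/k) := by
    intro c
    unfold Pool.Agent.H8.TW.meanNorm
    rw [finsum_eq_sum_of_fintype]
  refine ⟨⟨fun c ε hε => ?_, fun c r hr => ?_⟩, fun hirr hiso =>
    ⟨fun ε hε => artin_defect_log ρ hρ α _ hα' ω hω' cl hcl hclω M W χ hirr hiso hε,
      fun r hr => artin_defect_pole ρ hρ α _ hα' ω hω' cl hcl hclω M W χ hirr hiso r hr⟩,
    fun i hi hs r hr =>
      Pool.Agent.H8.TW.sparse_pole ρ hρ α _ hα' ω hω' cl hcl hclω M (χ i) hi hs r hr⟩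
  · rw [← hmean]
    exact Pool.Agent.H8.TW.dual_log ρ hρ α _ hα' ω hω' cl hcl hclω M W χ c hε
  · rw [← hmean]
    exact Pool.Agent.H8.TW.dual_pole ρ hρ α _ hα' ω hω' cl hcl hclω M W χ c r hr

end Pool.Agent.Results.MP_1f4fc7_nt.ArtinDefect
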