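import Mathlib
import Pool.Agent.H3.Artin.Continuity

open NumberField IsDedekindDomain Filter Topology Module Pool.Agent.H3.TatePole Pool.Agent.H3.Artin

namespace Pool.Agent.Results.MP_1f4fc7_nt.DefectContinuity

/-- **The defect of the order formula is locally constant and passes to limit fields.**

`k` is a number field, `Ω` an algebraic closure, `ρ` a finite-dimensional complex representation
of `Gal(Ω/k)` with weights at most two (for instance `H²(X̄, ℚ_ℓ) ⊗ ℂ` for a smooth projective
variety `X` over `k`), `α` a complex representation which is trivial on `Gal(Ω/L)` for a finite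
extension `L` of `k` (for instance `NS(X̄) ⊗ ℂ`), and `cl` an injective linear map, equivariant up
to the Tate twist `ω` (for instance the cycle class map).

`𝒦` is a set of finite extensions `K` of `k` with at most `N` double cosets
`Gal(Ω/K) \ Gal(Ω/k) / Gal(Ω/K)` (this is the case if `[K : k] ≤ N`), such that
`log |L(s, ρ|K)| / log (1 / (s - 2))` has an integral limit as `s → 2+` for every `K` in `𝒦` (this
is the case if `L(s, ρ|K)` has a pole of some order at `s = 2`).

Then there are at most `4 (N - 1) (dim ρ - dim α)²` members of `𝒦` with the following property,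
where `M` is the compositum of their Galois closures and of the Galois closure of `L`.  For every
finite extension `K` of `k` which is a limit of members of `𝒦` (in particular for every `K` in
`𝒦`), the logarithmic growth of `L(s, ρ|K)` at `s = 2`, and the order of its pole if it has one,
is the dimension of the space of `Gal(Ω/K)`-invariants of `α` plus an integer which depends only
on `K ∩ M`. -/
theorem result {k : Type*} [Field k] [NumberField k] {Ω : Type*} [Field Ω] [Algebra k Ω]
    [IsGalois k Ω] [IsAlgClosed Ω]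
    {V A : Type*} [AddCommGroup V] [Module ℂ V] [FiniteDimensional ℂ V]
    [AddCommGroup A] [Module ℂ A] [FiniteDimensional ℂ A]
    (ρ : Representation ℂ Gal(Ω/k) V) (hρ : WeightsLeTwo (RingHom.id ℂ) ρ)
    (α : Representation ℂ Gal(Ω/k) A) (L : IntermediateField k Ω) [FiniteDimensional k L]
    (hα : ∀ σ ∈ L.fixingSubgroup, α σ = 1)
    (ω : Gal(Ω/k) →* ℂ) (hω : IsTateTwist ω)
    (cl : A →ₗ[ℂ] V) (hcl : Function.Injective cl)
    (hclω : ∀ σ a, ρ σ (cl a) = ω σ • cl (α σ a))
    (N : ℕ) (𝒦 : Set (IntermediateField k Ω)) (hfin : ∀ K ∈ 𝒦, FiniteDimensional k K)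
    (hN : ∀ K ∈ 𝒦, Nat.card (DoubleCoset.Quotient (K.fixingSubgroup : Set Gal(Ω/k))
      K.fixingSubgroup) ≤ N)
    (hgrowth : ∀ K ∈ 𝒦, ∀ (_ : FiniteDimensional k K),
      ∃ r : ℤ, HasGrowth (LFunction (RingHom.id ℂ) (resRep ρ K)) r) :
    ∃ (T : Finset (IntermediateField k Ω)) (D : IntermediateField k Ω → ℤ), (∀ F ∈ T, F ∈ 𝒦) ∧
      T.card ≤ 4 * (N - 1) * (finrank ℂ V - finrank ℂ A) ^ 2 ∧
      ∀ (K : IntermediateField k Ω) [FiniteDimensional k K], IsLimitOf 𝒦 K →
        HasGrowth (LFunction (RingHom.id ℂ) (resRep ρ K))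
          (D (K ⊓ (IntermediateField.normalClosure k L Ω ⊔
            ⨆ F ∈ T, IntermediateField.normalClosure k F Ω)) + finrank ℂ (resRep α K).invariants) ∧
        ∀ r : ℤ, HasPoleOfOrder (LFunction (RingHom.id ℂ) (resRep ρ K)) 2 r →
          r = D (K ⊓ (IntermediateField.normalClosure k L Ω ⊔
            ⨆ F ∈ T, IntermediateField.normalClosure k F Ω)) +
              finrank ℂ (resRep α K).invariants := by
  have hω' : {𝔭 : HeightOneSpectrum (𝓞 k) |
      ω (frobeniusAt Ω 𝔭).φ⁻¹ ≠ Ideal.absNorm 𝔭.asIdeal}.Finite :=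
    hω.subset fun 𝔭 h => ⟨_, h⟩
  obtain ⟨T, D, hT, hcard, hmain⟩ := defect_continuity ρ hρ α L hα ω hω' cl hcl hclω N 𝒦 hfin hN
    hgrowth
  refine ⟨T, D, hT, hcard, fun K hK hlim => ⟨hmain K hlim, fun r hr => ?_⟩⟩
  have h1 := tendsto_nhds_unique hr.hasGrowth (hmain K hlim)
  exact_mod_cast h1

end Pool.Agent.Results.MP_1f4fc7_nt.DefectContinuity
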