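import Pool.Agent.H8.TW.Main

/-!
# The pole of `L₂` at `s = 2` for quadratic twists of a product of two hyperelliptic curves

Let `K / k` be an extension of number fields (for instance `K = k`) and `f, g` polynomials of odd
degrees `2 g₁ + 1`, `2 g₂ + 1` over the integers of `k`, separable over `k`. For a nonzero integer `d`
of `K` let `X_d` be the surface `C_d × C` over `K`, with `C_d` the curve `y ^ 2 = d f(x)` and `C` the
curve `y ^ 2 = g(x)`.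
No case of the Weil conjectures is assumed: the bound for the Frobenius traces is proved in
`Pool.Agent.H1.Weil`.
-/

open NumberField IsDedekindDomain Filter Topology Polynomial

namespace Pool.Agent.Results.MP_1f4fc7_nt.TwistFamily

open Pool.Agent.H1.Tate Pool.Agent.H8.TW

/-- (A) For every finite set `P` of pairs `(σ, d)`, `σ` an automorphism of `K` over `k` and `d` a
nonzero integer of `K`, such that the numbers `σ d` are pairwise inequivalent modulo squares: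
`limsup_{s → 2+} ∑_{(σ, d) ∈ P} (log |L₂(s, X_d)| / log (1 / (s - 2)) - 2)² ≤ (4 g₁ g₂)²`; in particular,
if `L₂(s, X_d)` has a pole of order `r_d` at `s = 2` for all these `d`, then
`∑_{(σ, d) ∈ P} (r_d - 2)² ≤ (4 g₁ g₂)²`.
(B) For every single `d` which has `m` conjugates `σ d` over `k` that are pairwise inequivalent
modulo squares of `K`: `limsup_{s → 2+} m (log |L₂(s, X_d)| / log (1 / (s - 2)) - 2)² ≤ (4 g₁ g₂)²`, and
if `m > (4 g₁ g₂)²` then the only order that a pole of `L₂(s, X_d)` at `s = 2` can have is `2`. -/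
theorem result {k K : Type*} [Field k] [NumberField k] [Field K] [NumberField K] [Algebra k K]
    (f g : (𝓞 k)[X]) (g₁ g₂ : ℕ)
    (hf : f.natDegree = 2 * g₁ + 1) (hg : g.natDegree = 2 * g₂ + 1)
    (hsf : (f.map (algebraMap (𝓞 k) k)).Separable) (hsg : (g.map (algebraMap (𝓞 k) k)).Separable) :
    (∀ P : Finset ((K ≃ₐ[k] K) × 𝓞 K), (∀ p ∈ P, p.2 ≠ 0) →
      (∀ p ∈ P, ∀ q ∈ P, p ≠ q → ¬ IsSquare (p.1 (p.2 : K) * q.1 (q.2 : K))) →
      ∀ bad : 𝓞 K → HeightOneSpectrum (𝓞 K) → Multiset ℂ,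
      (∀ p ∈ P, ∀ v, ∀ α ∈ bad p.2 v, ‖α‖ ≤ Ideal.absNorm v.asIdeal) →
      (∀ ε : ℝ, 0 < ε → ∀ᶠ s : ℝ in 𝓝[>] 2,
        ∑ p ∈ P, (Real.log ‖L2 (C p.2 * f.map (algebraMap (𝓞 k) (𝓞 K)))
          (g.map (algebraMap (𝓞 k) (𝓞 K))) (bad p.2) (s : ℂ)‖ / Real.log (1 / (s - 2)) - 2) ^ 2 ≤
            (4 * g₁ * g₂ : ℝ) ^ 2 + ε) ∧
      (∀ r : 𝓞 K → ℤ, (∀ p ∈ P, HasPole (L2 (C p.2 * f.map (algebraMap (𝓞 k) (𝓞 K)))
          (g.map (algebraMap (𝓞 k) (𝓞 K))) (bad p.2)) 2 (r p.2)) →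
        ∑ p ∈ P, (r p.2 - 2) ^ 2 ≤ (4 * g₁ * g₂ : ℤ) ^ 2)) ∧
    (∀ d : 𝓞 K, d ≠ 0 → ∀ T : Finset (K ≃ₐ[k] K),
      (∀ σ ∈ T, ∀ τ ∈ T, σ ≠ τ → ¬ IsSquare (σ (d : K) * τ (d : K))) →
      ∀ bad : HeightOneSpectrum (𝓞 K) → Multiset ℂ,
      (∀ v, ∀ α ∈ bad v, ‖α‖ ≤ Ideal.absNorm v.asIdeal) →
      (∀ ε : ℝ, 0 < ε → ∀ᶠ s : ℝ in 𝓝[>] 2,
        T.card * (Real.log ‖L2 (C d * f.map (algebraMap (𝓞 k) (𝓞 K)))
          (g.map (algebraMap (𝓞 k) (𝓞 K))) bad (s : ℂ)‖ / Real.log (1 / (s - 2)) - 2) ^ 2 ≤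
            (4 * g₁ * g₂ : ℝ) ^ 2 + ε) ∧
      ((4 * g₁ * g₂) ^ 2 < T.card → ∀ r : ℤ, HasPole (L2 (C d * f.map (algebraMap (𝓞 k) (𝓞 K)))
          (g.map (algebraMap (𝓞 k) (𝓞 K))) bad) 2 r → r = 2)) :=
  ⟨fun P hd hP _ hbad => ⟨fun _ hε => conj_mean_square P hf hg hsf hsg hd hP hbad hε,
    fun _ hr => conj_pole P hf hg hsf hsg hd hP hbad hr⟩,
   fun _ hd T hT _ hbad => ⟨fun _ hε => single_growth T hf hg hsf hsg hd hT hbad hε,
    fun hc _ hr => single_pole T hf hg hsf hsg hd hT hbad hc hr⟩⟩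

end Pool.Agent.Results.MP_1f4fc7_nt.TwistFamily
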